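import Pool.Agent.H586.AF.E

/-!
# Project AH (helper586), R2: the neutral part, the limit `1/2`

`tr (mA⁻¹ mR) = 2 ∫ c1 (-c2') c2 c3` (`S_R1`), where the `ci` differ by at most `2 C` (`S_C`); up to `O(L³)` this is
`2 ∫ c2³ (-c2') = (c2(0)⁴ - c2(∞)⁴)/2`, `c2(0) = L - 1`, `0 ≤ c2(∞) ≤ C`.
-/

set_option autoImplicit false
set_option linter.unusedVariables false

open MeasureTheory Matrix Filter Topology Set

namespace Pool.Agent.H351.AH

open Pool.Agent.H586.AF Pool.Agent.H586.AF.EE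

theorem cc_deriv {n : ℕ} (A : Matrix (Fin n) (Fin n) ℝ) (t : ℝ) :
    HasDerivAt (cc A) (-ce A t) t := by
  let _ : NormedRing (Matrix (Fin n) (Fin n) ℝ) := Matrix.linftyOpNormedRing
  let _ : NormedAlgebra ℝ (Matrix (Fin n) (Fin n) ℝ) := Matrix.linftyOpNormedAlgebra
  have h1 : HasDerivAt (fun u : ℝ => NormedSpace.exp (u • (-A)))
      (NormedSpace.exp (t • (-A)) * (-A)) t := hasDerivAt_exp_smul_const (-A) t
  have h2 : HasDerivAt (fun u : ℝ => (NormedSpace.exp (u • (-A))).trace)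
      ((NormedSpace.exp (t • (-A)) * (-A)).trace) t :=
    ((Matrix.traceLinearMap (Fin n) ℝ ℝ).toContinuousLinearMap.hasFDerivAt).comp_hasDerivAt t h1
  have e1 : cc A = fun u : ℝ => (NormedSpace.exp (u • (-A))).trace := by
    funext u
    unfold cc hk
    rw [neg_smul, smul_neg]
  have e2 : -ce A t = (NormedSpace.exp (t • (-A)) * (-A)).trace := by
    unfold ce hk
    rw [neg_smul, smul_neg, Matrix.mul_neg, Matrix.trace_neg, Matrix.trace_mul_comm]
  rw [e1, e2]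
  exact h2

theorem ce_nonneg {n m : ℕ} (d : Matrix (Fin m) (Fin n) ℝ) (t : ℝ) : 0 ≤ ce (dᵀ * d) t := by
  set A : Matrix (Fin n) (Fin n) ℝ := dᵀ * d with hA
  set F : Matrix (Fin n) (Fin n) ℝ := NormedSpace.exp ((-(t / 2)) • A) with hF
  have hAt : Aᵀ = A := by rw [hA, Matrix.transpose_mul, Matrix.transpose_transpose]
  have hFt : Fᵀ = F := by
    rw [hF, ← Matrix.exp_transpose, Matrix.transpose_smul, hAt]
  have hFF : hk A t = F * F := by
    unfold hk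
    rw [hF, ← Matrix.exp_add_of_commute _ _ (Commute.refl _), ← add_smul]
    congr 2
    ring
  have e : ce A t = ((d * F)ᵀ * (d * F)).trace := by
    unfold ce
    rw [hFF, Matrix.transpose_mul, hFt, ← Matrix.mul_assoc, Matrix.trace_mul_comm, hA]
    simp only [Matrix.mul_assoc]
  rw [e]
  unfold Matrix.trace
  refine Finset.sum_nonneg fun i _ => ?_
  rw [Matrix.diag_apply, Matrix.mul_apply]
  refine Finset.sum_nonneg fun j _ => ?_
  rw [Matrix.transpose_apply]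
  exact mul_self_nonneg _

theorem cc_zero {n : ℕ} (A : Matrix (Fin n) (Fin n) ℝ) : cc A 0 = n := by
  unfold cc hk
  rw [neg_zero, zero_smul, NormedSpace.exp_zero, Matrix.trace_one, Fintype.card_fin]

theorem cc_cont {n : ℕ} (A : Matrix (Fin n) (Fin n) ℝ) : Continuous (cc A) :=
  continuous_iff_continuousAt.2 fun t => (cc_deriv A t).continuousAt

/-- the abstract estimate -/
theorem core (c1 c2 c3 e : ℝ → ℝ) (n C M l : ℝ) (hC : 0 ≤ C) (hM : 0 ≤ M)
    (h1c : Continuous c1) (h3c : Continuous c3) (h2d : ∀ t, HasDerivAt c2 (-e t) t)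
    (he : ∀ t, 0 < t → 0 ≤ e t) (h20 : c2 0 = n) (hl : Tendsto c2 atTop (𝓝 l)) (hl0 : 0 ≤ l)
    (hlC : l ≤ C)
    (hb1 : ∀ t, 0 < t → 0 ≤ c1 t ∧ c1 t ≤ M) (hb2 : ∀ t, 0 < t → 0 ≤ c2 t ∧ c2 t ≤ M)
    (hb3 : ∀ t, 0 < t → 0 ≤ c3 t ∧ c3 t ≤ M)
    (h12 : ∀ t, 0 < t → |c1 t - c2 t| ≤ 2 * C) (h32 : ∀ t, 0 < t → |c3 t - c2 t| ≤ 2 * C) :
    |(∫ t in Ioi (0:ℝ), c1 t * e t * c2 t * c3 t) - n ^ 4 / 4| ≤ 4 * C * M * (n ^ 2 / 2) + C ^ 4 / 4 := by
  have h2c : Continuous c2 := continuous_iff_continuousAt.2 fun t => (h2d t).continuousAt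
  -- `∫ c2 e`
  have hg2 : ∀ t ∈ Ioi (0:ℝ), HasDerivAt (fun t => -(c2 t ^ 2 / 2)) (c2 t * e t) t := by
    intro t _
    have h := (((h2d t).pow 2).div_const 2).neg
    refine h.congr_deriv ?_
    simp
    ring
  have hg2l : Tendsto (fun t => -(c2 t ^ 2 / 2)) atTop (𝓝 (-(l ^ 2 / 2))) :=
    ((hl.pow 2).div_const 2).neg
  have hp2 : ∀ t ∈ Ioi (0:ℝ), 0 ≤ c2 t * e t := fun t ht => mul_nonneg (hb2 t ht).1 (he t ht)
  have hi2 : IntegrableOn (fun t => c2 t * e t) (Ioi 0) :=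
    integrableOn_Ioi_deriv_of_nonneg (by fun_prop) hg2 hp2 hg2l
  have hv2 : ∫ t in Ioi (0:ℝ), c2 t * e t = -(l ^ 2 / 2) - -(c2 0 ^ 2 / 2) :=
    integral_Ioi_of_hasDerivAt_of_nonneg (by fun_prop) hg2 hp2 hg2l
  -- `∫ c2³ e`
  have hg4 : ∀ t ∈ Ioi (0:ℝ), HasDerivAt (fun t => -(c2 t ^ 4 / 4)) (c2 t ^ 3 * e t) t := by
    intro t _
    have h := (((h2d t).pow 4).div_const 4).neg
    refine h.congr_deriv ?_
    simp
    ring
  have hg4l : Tendsto (fun t => -(c2 t ^ 4 / 4)) atTop (𝓝 (-(l ^ 4 / 4))) :=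
    ((hl.pow 4).div_const 4).neg
  have hp4 : ∀ t ∈ Ioi (0:ℝ), 0 ≤ c2 t ^ 3 * e t := fun t ht =>
    mul_nonneg (pow_nonneg (hb2 t ht).1 3) (he t ht)
  have hi4 : IntegrableOn (fun t => c2 t ^ 3 * e t) (Ioi 0) :=
    integrableOn_Ioi_deriv_of_nonneg (by fun_prop) hg4 hp4 hg4l
  have hv4 : ∫ t in Ioi (0:ℝ), c2 t ^ 3 * e t = -(l ^ 4 / 4) - -(c2 0 ^ 4 / 4) :=
    integral_Ioi_of_hasDerivAt_of_nonneg (by fun_prop) hg4 hp4 hg4l
  -- the difference
  have hdiff : ∀ t ∈ Ioi (0:ℝ), ‖(c1 t * c3 t - c2 t ^ 2) * (c2 t * e t)‖ ≤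
      4 * C * M * (c2 t * e t) := by
    intro t ht
    obtain ⟨a1, b1⟩ := hb1 t ht
    obtain ⟨a2, b2⟩ := hb2 t ht
    obtain ⟨a3, b3⟩ := hb3 t ht
    rw [norm_mul, Real.norm_eq_abs, Real.norm_of_nonneg (hp2 t ht)]
    refine mul_le_mul_of_nonneg_right ?_ (hp2 t ht)
    have e1 : c1 t * c3 t - c2 t ^ 2 = c1 t * (c3 t - c2 t) + c2 t * (c1 t - c2 t) := by ring
    rw [e1]
    refine (abs_add_le _ _).trans ?_
    rw [abs_mul, abs_mul, abs_of_nonneg a1, abs_of_nonneg a2]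
    have e2 : c1 t * |c3 t - c2 t| ≤ M * (2 * C) :=
      mul_le_mul b1 (h32 t ht) (abs_nonneg _) hM
    have e3 : c2 t * |c1 t - c2 t| ≤ M * (2 * C) :=
      mul_le_mul b2 (h12 t ht) (abs_nonneg _) hM
    linarith
  have hmeas : AEStronglyMeasurable (fun t => (c1 t * c3 t - c2 t ^ 2) * (c2 t * e t))
      (volume.restrict (Ioi 0)) :=
    ((h1c.mul h3c).sub (h2c.pow 2)).aestronglyMeasurable.mul hi2.aestronglyMeasurable
  have hid : IntegrableOn (fun t => (c1 t * c3 t - c2 t ^ 2) * (c2 t * e t)) (Ioi 0) := by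
    refine Integrable.mono' (hi2.const_mul (4 * C * M)) hmeas ?_
    filter_upwards [ae_restrict_mem measurableSet_Ioi] with t ht
    exact hdiff t ht
  have hsum : ∫ t in Ioi (0:ℝ), c1 t * e t * c2 t * c3 t =
      (∫ t in Ioi (0:ℝ), (c1 t * c3 t - c2 t ^ 2) * (c2 t * e t)) +
        ∫ t in Ioi (0:ℝ), c2 t ^ 3 * e t := by
    rw [← integral_add hid hi4]
    refine integral_congr_ae (Eventually.of_forall fun t => ?_)
    simp only
    ring
  have hbd : |∫ t in Ioi (0:ℝ), (c1 t * c3 t - c2 t ^ 2) * (c2 t * e t)| ≤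
      4 * C * M * (n ^ 2 / 2) := by
    have h := norm_integral_le_of_norm_le (hi2.const_mul (4 * C * M))
      (f := fun t => (c1 t * c3 t - c2 t ^ 2) * (c2 t * e t)) (by
        filter_upwards [ae_restrict_mem measurableSet_Ioi] with t ht
        exact hdiff t ht)
    rw [Real.norm_eq_abs] at h
    refine h.trans ?_
    rw [integral_const_mul, hv2, h20]
    refine mul_le_mul_of_nonneg_left ?_ (by positivity)
    have : 0 ≤ l ^ 2 := sq_nonneg l
    linarith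
  rw [hsum, hv4, h20]
  have hl4 : l ^ 4 ≤ C ^ 4 := pow_le_pow_left₀ hl0 hlC 4
  have hl40 : 0 ≤ l ^ 4 := by positivity
  have e5 : ((∫ t in Ioi (0:ℝ), (c1 t * c3 t - c2 t ^ 2) * (c2 t * e t)) +
      (-(l ^ 4 / 4) - -(n ^ 4 / 4))) - n ^ 4 / 4 =
      (∫ t in Ioi (0:ℝ), (c1 t * c3 t - c2 t ^ 2) * (c2 t * e t)) + (-(l ^ 4 / 4)) := by ring
  rw [e5]
  refine (abs_add_le _ _).trans (add_le_add hbd ?_)
  rw [abs_neg, abs_of_nonneg (by positivity)]
  linarith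

theorem tr2 (hCC : S_C) (hH : S_H) (hR1 : S_R1) : S_R2 := by
  obtain ⟨C, hC1, hC⟩ := hCC
  obtain ⟨C', hC'1, -, hH2, -⟩ := hH
  have hC0 : 0 ≤ C := by linarith
  have hC'0 : 0 ≤ C' := by linarith
  set D : ℝ := C' + C with hD
  have hD0 : 0 ≤ D := by positivity
  have hhb : ∀ t, 0 ≤ t → hh t ≤ C' := by
    intro t ht
    have h1 := (hH2 t ht).2.1
    have h2 : 1 ≤ Real.sqrt (1 + t) := by
      rw [Real.one_le_sqrt]
      linarith
    exact h1.trans (div_le_self hC'0 h2)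
  have key : ∀ L : ℕ, 2 ≤ L → |((mA L)⁻¹ * mR L).trace / (L : ℝ) ^ 4 - ((L - 1 : ℕ) : ℝ) ^ 4 / (L : ℝ) ^ 4 / 2| ≤
      (4 * C * D + C ^ 4) / L := by
    intro L hL
    have hLr : (2:ℝ) ≤ L := by exact_mod_cast hL
    have hL0 : (0:ℝ) < L := by linarith
    rw [hR1 L hL]
    set c2 : ℝ → ℝ := cc (lDD L) with hc2
    have hder : ∀ t, HasDerivAt c2 (-ce (lDD L) t) t := fun t => cc_deriv (lDD L) t
    have hce : ∀ t, 0 ≤ ce (lDD L) t := fun t => ce_nonneg (dm L (L - 1)) t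
    have hanti : Antitone c2 := antitone_of_hasDerivAt_nonpos hder fun t => by
      show -ce (lDD L) t ≤ 0
      linarith [hce t]
    have hle : ∀ x : ℝ, 0 ≤ x → x ≤ L * C' + C → x ≤ D * L := by
      intro x _ hx
      have : C ≤ C * L := le_mul_of_one_le_right hC0 (by linarith)
      rw [hD, add_mul]
      linarith
    have hLh : ∀ t, 0 ≤ t → (L : ℝ) * hh t ≤ L * C' := fun t ht =>
      mul_le_mul_of_nonneg_left (hhb t ht) hL0.le
    -- the limit at infinity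
    have hbdd : BddBelow (range (fun t => c2 (max t 0))) := by
      refine ⟨0, ?_⟩
      rintro _ ⟨t, rfl⟩
      exact (hC L hL (max t 0) (le_max_right _ _)).1.1
    have hanti' : Antitone (fun t : ℝ => c2 (max t 0)) := fun a b hab =>
      hanti (max_le_max_right 0 hab)
    have hlim0 := tendsto_atTop_ciInf hanti' hbdd
    set l : ℝ := ⨅ t : ℝ, c2 (max t 0) with hl
    have hlim : Tendsto c2 atTop (𝓝 l) := by
      refine hlim0.congr' ?_
      filter_upwards [eventually_ge_atTop 0] with t ht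
      rw [max_eq_left ht]
    have hl0 : 0 ≤ l := by
      refine ge_of_tendsto hlim ?_
      filter_upwards [eventually_ge_atTop 0] with t ht
      exact (hC L hL t ht).1.1
    have hlC : l ≤ C := by
      refine le_of_tendsto hlim ?_
      filter_upwards [eventually_ge_atTop ((L : ℝ) ^ 2)] with t ht
      exact ((hC L hL t (le_trans (sq_nonneg _) ht)).2.2.2.2 ht).1
    have h := core (cc (lNN L)) c2 (cc (lDN L)) (ce (lDD L)) ((L - 1 : ℕ) : ℝ) C (D * L) l hC0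
      (by positivity) (cc_cont _) (cc_cont _) hder (fun t _ => hce t) (cc_zero (lDD L)) hlim hl0 hlC
      (fun t ht => by
        obtain ⟨a, b⟩ := (hC L hL t ht.le).2.1
        exact ⟨a, hle _ a (by have := (abs_le.1 b).2; linarith [hLh t ht.le])⟩)
      (fun t ht => by
        obtain ⟨a, b⟩ := (hC L hL t ht.le).1
        exact ⟨a, hle _ a (by have := (abs_le.1 b).2; linarith [hLh t ht.le])⟩)
      (fun t ht => by
        obtain ⟨a, b⟩ := (hC L hL t ht.le).2.2.1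
        exact ⟨a, hle _ a (by have := (abs_le.1 b).2; linarith [hLh t ht.le])⟩)
      (fun t ht => by
        have a := abs_le.1 (hC L hL t ht.le).1.2
        have b := abs_le.1 (hC L hL t ht.le).2.1.2
        rw [abs_le]
        constructor <;> linarith [a.1, a.2, b.1, b.2])
      (fun t ht => by
        have a := abs_le.1 (hC L hL t ht.le).1.2
        have b := abs_le.1 (hC L hL t ht.le).2.2.1.2
        rw [abs_le]
        constructor <;> linarith [a.1, a.2, b.1, b.2])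
    set J : ℝ := ∫ t in Ioi (0:ℝ), cc (lNN L) t * ce (lDD L) t * c2 t * cc (lDN L) t with hJ
    set n : ℝ := ((L - 1 : ℕ) : ℝ) with hn
    have hnL : n ≤ L := by
      rw [hn]
      exact_mod_cast Nat.sub_le L 1
    have hn0 : 0 ≤ n := Nat.cast_nonneg _
    have hn2 : n ^ 2 ≤ (L : ℝ) ^ 2 := pow_le_pow_left₀ hn0 hnL 2
    have e1 : 2 * J / (L : ℝ) ^ 4 - n ^ 4 / (L : ℝ) ^ 4 / 2 = 2 * (J - n ^ 4 / 4) / (L : ℝ) ^ 4 := by
      ring
    rw [e1, abs_div, abs_mul, abs_of_pos (by norm_num : (0:ℝ) < 2),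
      abs_of_pos (by positivity : (0:ℝ) < (L : ℝ) ^ 4), div_le_div_iff₀ (by positivity) hL0]
    have h5 : 2 * |J - n ^ 4 / 4| ≤ (4 * C * D + C ^ 4) * (L : ℝ) ^ 3 := by
      have h6 : 4 * C * (D * L) * (n ^ 2 / 2) ≤ 4 * C * (D * L) * ((L : ℝ) ^ 2 / 2) :=
        mul_le_mul_of_nonneg_left (by linarith) (by positivity)
      have h7 : C ^ 4 ≤ C ^ 4 * (L : ℝ) ^ 3 :=
        le_mul_of_one_le_right (by positivity) (one_le_pow₀ (by linarith))
      have h8 : 0 ≤ C ^ 4 * (L : ℝ) ^ 3 := by positivity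
      nlinarith
    calc 2 * |J - n ^ 4 / 4| * L ≤ (4 * C * D + C ^ 4) * (L : ℝ) ^ 3 * L :=
          mul_le_mul_of_nonneg_right h5 hL0.le
      _ = _ := by ring
  -- conclusion
  have hlimA : Tendsto (fun L : ℕ => ((L - 1 : ℕ) : ℝ) ^ 4 / (L : ℝ) ^ 4 / 2) atTop (𝓝 (1 / 2)) := by
    have h1 : Tendsto (fun L : ℕ => (1 - 1 / (L : ℝ)) ^ 4 / 2) atTop (𝓝 ((1 - 0) ^ 4 / 2)) :=
      (((tendsto_const_nhds.sub tendsto_one_div_atTop_nhds_zero_nat).pow 4).div_const 2)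
    have h2 : ((1:ℝ) - 0) ^ 4 / 2 = 1 / 2 := by norm_num
    rw [h2] at h1
    refine h1.congr' ?_
    filter_upwards [eventually_ge_atTop 1] with L hL
    have hL0 : (L : ℝ) ≠ 0 := by exact_mod_cast (by omega : L ≠ 0)
    rw [Nat.cast_sub hL, Nat.cast_one, ← div_pow]
    congr 2
    field_simp
  have hlimB : Tendsto (fun L : ℕ => (4 * C * D + C ^ 4) / (L : ℝ)) atTop (𝓝 0) :=
    tendsto_const_div_atTop_nhds_zero_nat _
  have hlimC : Tendsto (fun L : ℕ => ((mA L)⁻¹ * mR L).trace / (L : ℝ) ^ 4 -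
      ((L - 1 : ℕ) : ℝ) ^ 4 / (L : ℝ) ^ 4 / 2) atTop (𝓝 0) := by
    refine squeeze_zero_norm' ?_ hlimB
    filter_upwards [eventually_ge_atTop 2] with L hL
    rw [Real.norm_eq_abs]
    exact key L hL
  have h := hlimC.add hlimA
  rw [zero_add] at h
  unfold S_R2
  refine h.congr fun L => ?_
  ring

end Pool.Agent.H351.AH
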